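import Mathlib

/-!
# Density of the algebraic numbers in the algebraic closure of the p-adic numbers, and descent
-/

set_option autoImplicit false

namespace Pool.Agent.Q244.GD

open Polynomial Finset

variable {p : ℕ} [hp : Fact p.Prime]

theorem norm_aut (σ : PadicAlgCl p ≃ₐ[ℚ_[p]] PadicAlgCl p) (x : PadicAlgCl p) :
    ‖σ x‖ = ‖x‖ := (spectralNorm_eq_of_equiv σ x).symm

theorem cont_aut (σ : PadicAlgCl p ≃ₐ[ℚ_[p]] PadicAlgCl p) : Continuous σ :=
  (AddMonoidHomClass.isometry_of_norm σ (norm_aut σ)).continuous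

theorem prod_lower (v : PadicAlgCl p) (ε : ℝ) (hε : 0 ≤ ε) (s : Multiset (PadicAlgCl p)) :
    (∀ β ∈ s, ε ≤ ‖v - β‖) → ε ^ (Multiset.card s) ≤ (s.map (fun β => ‖v - β‖)).prod := by
  induction s using Multiset.induction_on with
  | empty => intro _; simp
  | cons a s ih =>
    intro h
    rw [Multiset.card_cons, Multiset.map_cons, Multiset.prod_cons, pow_succ, mul_comm]
    exact mul_le_mul (h a (Multiset.mem_cons_self a s))
      (ih fun β hβ => h β (Multiset.mem_cons_of_mem hβ)) (pow_nonneg hε _) (norm_nonneg _)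

/-- The algebraic numbers are dense. -/
theorem dense_alg (v : PadicAlgCl p) (ε : ℝ) (hε : 0 < ε) :
    ∃ c : PadicAlgCl p, IsAlgebraic ℚ c ∧ ‖v - c‖ < ε := by
  classical
  have hint : IsIntegral ℚ_[p] v := Algebra.IsIntegral.isIntegral v
  set f := minpoly ℚ_[p] v with hf
  have hmon : f.Monic := minpoly.monic hint
  set n := f.natDegree with hn
  have hn1 : 1 ≤ n := minpoly.natDegree_pos hint
  set C : ℝ := ∑ i ∈ range n, ‖v‖ ^ i with hC
  have hC0 : 0 ≤ C := Finset.sum_nonneg fun i _ => pow_nonneg (norm_nonneg _) _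
  set δ : ℝ := ε ^ n / (C + 1) / 2 with hδ
  have hδ0 : 0 < δ := by positivity
  have h1 : ∀ i : ℕ, ∃ r : ℚ, ‖f.coeff i - r‖ < δ := fun i => Padic.rat_dense p _ hδ0
  choose r hr using h1
  set g : ℚ[X] := X ^ n + ∑ i ∈ range n, Polynomial.C (r i) * X ^ i with hg
  have hdeg : (∑ i ∈ range n, Polynomial.C (r i) * X ^ i).degree <
      (n : WithBot ℕ) := by
    refine lt_of_le_of_lt (degree_sum_le _ _) ?_
    rw [Finset.sup_lt_iff (by exact_mod_cast WithBot.bot_lt_coe n)]
    intro i hi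
    refine lt_of_le_of_lt (degree_C_mul_X_pow_le i (r i)) ?_
    exact_mod_cast Finset.mem_range.1 hi
  have hgmon : g.Monic := by
    rw [hg]
    exact monic_X_pow_add hdeg
  have hgdeg : g.natDegree = n := by
    refine natDegree_eq_of_degree_eq_some ?_
    rw [hg, degree_add_eq_left_of_degree_lt (by rw [degree_X_pow]; exact hdeg), degree_X_pow]
  have hfv : v ^ n + ∑ i ∈ range n, algebraMap ℚ_[p] (PadicAlgCl p) (f.coeff i) * v ^ i = 0 := by
    have h2 : aeval v f = 0 := minpoly.aeval _ _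
    rw [aeval_eq_sum_range, ← hn, Finset.sum_range_succ, add_comm] at h2
    have h3 : f.coeff n = 1 := hmon.coeff_natDegree
    rw [h3, one_smul] at h2
    rw [← h2]
    congr 1
    refine Finset.sum_congr rfl fun i _ => ?_
    rw [Algebra.smul_def]
  set G : (PadicAlgCl p)[X] := g.map (algebraMap ℚ (PadicAlgCl p)) with hG
  have hGv : G.eval v = ∑ i ∈ range n,
      algebraMap ℚ_[p] (PadicAlgCl p) ((r i : ℚ_[p]) - f.coeff i) * v ^ i := by
    have h4 : G.eval v = v ^ n + ∑ i ∈ range n, ((r i : ℚ) : PadicAlgCl p) * v ^ i := by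
      rw [hG, hg]
      simp [Polynomial.eval_finsetSum, Polynomial.map_sum]
    rw [h4]
    have h5 : ∀ i, algebraMap ℚ_[p] (PadicAlgCl p) ((r i : ℚ_[p]) - f.coeff i) * v ^ i =
        ((r i : ℚ) : PadicAlgCl p) * v ^ i -
          algebraMap ℚ_[p] (PadicAlgCl p) (f.coeff i) * v ^ i := by
      intro i
      rw [map_sub, sub_mul, map_ratCast]
    rw [Finset.sum_congr rfl (fun i _ => h5 i), Finset.sum_sub_distrib]
    linear_combination hfv
  have hsmall : ‖G.eval v‖ < ε ^ n := by
    have h6 : ‖G.eval v‖ ≤ δ * C := by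
      rw [hGv, hC, Finset.mul_sum]
      refine (norm_sum_le _ _).trans (Finset.sum_le_sum fun i _ => ?_)
      rw [norm_mul, norm_pow]
      have h7 : ‖algebraMap ℚ_[p] (PadicAlgCl p) ((r i : ℚ_[p]) - f.coeff i)‖ =
          ‖(r i : ℚ_[p]) - f.coeff i‖ := PadicAlgCl.norm_extends p _
      rw [h7, norm_sub_rev]
      exact mul_le_mul_of_nonneg_right (hr i).le (pow_nonneg (norm_nonneg _) _)
    have h8 : δ * C < ε ^ n := by
      have h9 : δ * (C + 1) = ε ^ n / 2 := by
        rw [hδ]
        field_simp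
      have h10 : 0 < ε ^ n := pow_pos hε n
      nlinarith
    exact lt_of_le_of_lt h6 h8
  by_contra hcon
  push Not at hcon
  have hroots : ∀ β ∈ G.roots, ε ≤ ‖v - β‖ := by
    intro β hβ
    refine hcon β ⟨g, hgmon.ne_zero, ?_⟩
    have := (mem_roots'.1 hβ).2
    rw [IsRoot.def, hG, eval_map, ← aeval_def] at this
    exact this
  have hGm : G.Monic := hgmon.map _
  have hspl : G.Splits := IsAlgClosed.splits G
  have h11 : G.eval v = (G.roots.map (fun β => v - β)).prod := by
    conv_lhs => rw [hspl.eq_prod_roots_of_monic hGm]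
    rw [eval_multiset_prod, Multiset.map_map]
    congr 1
    refine Multiset.map_congr rfl fun β _ => ?_
    simp
  have h12 : ‖G.eval v‖ = (G.roots.map (fun β => ‖v - β‖)).prod := by
    rw [h11]
    generalize G.roots = s
    induction s using Multiset.induction_on with
    | empty => simp
    | cons a s ih => rw [Multiset.map_cons, Multiset.prod_cons, norm_mul, ih, Multiset.map_cons,
        Multiset.prod_cons]
  have h13 : Multiset.card G.roots = n := by
    rw [hspl.natDegree_eq_card_roots.symm, hG, hgmon.natDegree_map, hgdeg]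
  have h14 := prod_lower v ε hε.le G.roots hroots
  rw [h13, ← h12] at h14
  linarith

/-- **Krasner's lemma.** -/
theorem krasner (E : IntermediateField ℚ_[p] (PadicAlgCl p)) (v : PadicAlgCl p) :
    ∃ c : PadicAlgCl p, IsAlgebraic ℚ c ∧
      ∀ σ : PadicAlgCl p ≃ₐ[E] PadicAlgCl p, σ c = c → σ v = v := by
  classical
  have hint : IsIntegral E v := Algebra.IsIntegral.isIntegral v
  set S : Finset (PadicAlgCl p) := (((minpoly E v).aroots (PadicAlgCl p)).toFinset).erase v with hS
  obtain ⟨ε, hε, hεS⟩ : ∃ ε : ℝ, 0 < ε ∧ ∀ w ∈ S, ε ≤ ‖w - v‖ := by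
    by_cases hne : S.Nonempty
    · refine ⟨S.inf' hne (fun w => ‖w - v‖), ?_, fun w hw => Finset.inf'_le _ hw⟩
      rw [Finset.lt_inf'_iff]
      intro w hw
      rw [norm_pos_iff, sub_ne_zero]
      exact (Finset.mem_erase.1 hw).1
    · refine ⟨1, one_pos, fun w hw => absurd ⟨w, hw⟩ hne⟩
  obtain ⟨c, hc, hcv⟩ := dense_alg v ε hε
  refine ⟨c, hc, fun σ hσ => ?_⟩
  by_contra hne
  have hmem : σ v ∈ S := by
    rw [hS, Finset.mem_erase, Multiset.mem_toFinset, mem_aroots]
    refine ⟨hne, minpoly.ne_zero hint, ?_⟩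
    have : aeval (σ v) (minpoly E v) = σ (aeval v (minpoly E v)) := by
      exact Polynomial.aeval_algHom_apply σ.toAlgHom v _
    rw [this, minpoly.aeval, map_zero]
  have h1 := hεS _ hmem
  have h2 : ‖σ v - v‖ ≤ max ‖σ v - c‖ ‖c - v‖ := by
    have := PadicAlgCl.isNonarchimedean p (σ v - c) (c - v)
    rwa [sub_add_sub_cancel] at this
  have h3 : ‖σ v - c‖ = ‖v - c‖ := by
    have h4 : σ v - c = σ (v - c) := by rw [map_sub, hσ]
    rw [h4]
    exact norm_aut (σ.restrictScalars ℚ_[p]) _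
  rw [h3, norm_sub_rev c v, max_self] at h2
  linarith

end Pool.Agent.Q244.GD
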