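import Pool.Agent.Q244.GD.Dens

/-!
# Galois descent for spaces over the algebraic numbers in the algebraic closure of the p-adic numbers
-/

set_option autoImplicit false

namespace Pool.Agent.Q244.GD

open Polynomial Finset

variable {p : ℕ} [hp : Fact p.Prime]

/-- The algebraic numbers. -/
noncomputable abbrev Qb (p : ℕ) [Fact p.Prime] : IntermediateField ℚ (PadicAlgCl p) :=
  algebraicClosure ℚ (PadicAlgCl p)

theorem aut_alg {E : IntermediateField ℚ_[p] (PadicAlgCl p)}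
    (σ : PadicAlgCl p ≃ₐ[E] PadicAlgCl p) {c : PadicAlgCl p} (hc : IsAlgebraic ℚ c) :
    IsAlgebraic ℚ (σ c) :=
  hc.algHom (RingHom.toRatAlgHom (σ : PadicAlgCl p →+* PadicAlgCl p))

/-- An element fixed by the Galois group lies in the field. -/
theorem mem_of_fixed {E : IntermediateField ℚ_[p] (PadicAlgCl p)} {x : PadicAlgCl p}
    (h : ∀ σ : PadicAlgCl p ≃ₐ[E] PadicAlgCl p, σ x = x) : x ∈ E := by
  have : x ∈ Set.range (algebraMap E (PadicAlgCl p)) :=
    (InfiniteGalois.mem_range_algebraMap_iff_fixed x).2 h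
  obtain ⟨y, rfl⟩ := this
  exact y.2

/-- **Galois descent.** A space over the algebraic numbers which is stable under the Galois group
of `E` is spanned by its elements in `E`. -/
theorem descent (E : IntermediateField ℚ_[p] (PadicAlgCl p)) (V : Submodule (Qb p) (PadicAlgCl p))
    (hV : ∀ σ : PadicAlgCl p ≃ₐ[E] PadicAlgCl p, ∀ v ∈ V, σ v ∈ V) (v : PadicAlgCl p)
    (hv : v ∈ V) : v ∈ Submodule.span (Qb p) {w | w ∈ V ∧ w ∈ E} := by
  classical
  obtain ⟨c, hc, hk⟩ := krasner E v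
  have hint : IsIntegral E c := Algebra.IsIntegral.isIntegral c
  -- the conjugates of `c`
  have hfin : (Set.range fun σ : PadicAlgCl p ≃ₐ[E] PadicAlgCl p => σ c).Finite := by
    refine ((minpoly E c).aroots (PadicAlgCl p)).toFinset.finite_toSet.subset ?_
    rintro _ ⟨σ, rfl⟩
    rw [Finset.mem_coe, Multiset.mem_toFinset, mem_aroots]
    refine ⟨minpoly.ne_zero hint, ?_⟩
    have h1 : aeval (σ c) (minpoly E c) = σ (aeval c (minpoly E c)) :=
      Polynomial.aeval_algHom_apply σ.toAlgHom c _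
    show aeval (σ c) (minpoly E c) = 0
    rw [h1, minpoly.aeval, map_zero]
  set S : Finset (PadicAlgCl p) := hfin.toFinset with hS
  have hSmem : ∀ c', c' ∈ S ↔ ∃ σ : PadicAlgCl p ≃ₐ[E] PadicAlgCl p, σ c = c' := by
    intro c'
    rw [hS, Set.Finite.mem_toFinset, Set.mem_range]
  have hex : ∀ c' : S, ∃ σ : PadicAlgCl p ≃ₐ[E] PadicAlgCl p, σ c = c' := fun c' =>
    (hSmem c').1 c'.2
  choose s hs using hex
  let w : PadicAlgCl p → PadicAlgCl p := fun c' => if h : c' ∈ S then s ⟨c', h⟩ v else 0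
  have hw : ∀ τ : PadicAlgCl p ≃ₐ[E] PadicAlgCl p, w (τ c) = τ v := by
    intro τ
    have hm : τ c ∈ S := (hSmem _).2 ⟨τ, rfl⟩
    simp only [w, dif_pos hm]
    set σ := s ⟨τ c, hm⟩ with hσ
    have h1 : σ c = τ c := hs ⟨τ c, hm⟩
    have h2 : (τ.trans σ.symm) c = c := by
      rw [AlgEquiv.trans_apply, ← h1, AlgEquiv.symm_apply_apply]
    have h3 := hk _ h2
    rw [AlgEquiv.trans_apply, AlgEquiv.symm_apply_eq] at h3
    exact h3.symm
  -- the invariants
  let t : ℕ → PadicAlgCl p := fun i => ∑ c' ∈ S, c' ^ i * w c'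
  have halg : ∀ c' ∈ S, IsAlgebraic ℚ c' := by
    intro c' hc'
    obtain ⟨σ, rfl⟩ := (hSmem c').1 hc'
    exact aut_alg σ hc
  have hsmul : ∀ (a : PadicAlgCl p), IsAlgebraic ℚ a → ∀ U : Submodule (Qb p) (PadicAlgCl p),
      ∀ x ∈ U, a * x ∈ U := by
    intro a ha U x hx
    have := U.smul_mem (⟨a, mem_algebraicClosure_iff.2 ha⟩ : Qb p) hx
    rwa [Algebra.smul_def] at this
  have htV : ∀ i, t i ∈ V := by
    intro i
    refine Submodule.sum_mem _ fun c' hc' => ?_
    refine hsmul _ ((halg c' hc').pow i) V _ ?_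
    obtain ⟨σ, rfl⟩ := (hSmem c').1 hc'
    rw [hw]
    exact hV σ v hv
  have htE : ∀ i, t i ∈ E := by
    intro i
    refine mem_of_fixed fun τ => ?_
    simp only [t, map_sum, map_mul, map_pow]
    refine Finset.sum_bij (fun c' _ => τ c') ?_ ?_ ?_ ?_
    · intro c' hc'
      obtain ⟨σ, rfl⟩ := (hSmem c').1 hc'
      exact (hSmem _).2 ⟨σ.trans τ, rfl⟩
    · intro a _ b _ hab
      exact τ.injective hab
    · intro c' hc'
      obtain ⟨σ, rfl⟩ := (hSmem c').1 hc'
      refine ⟨τ.symm (σ c), (hSmem _).2 ⟨σ.trans τ.symm, rfl⟩, ?_⟩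
      rw [AlgEquiv.apply_symm_apply]
    · intro c' hc'
      obtain ⟨σ, rfl⟩ := (hSmem c').1 hc'
      rw [hw σ]
      have : w (τ (σ c)) = τ (σ v) := hw (σ.trans τ)
      rw [this]
  -- interpolation
  have hcS : c ∈ S := (hSmem c).2 ⟨AlgEquiv.refl, rfl⟩
  let nd : S → Qb p := fun c' => ⟨c', mem_algebraicClosure_iff.2 (halg c' c'.2)⟩
  have hnd : Set.InjOn nd (Finset.univ : Finset S) := by
    intro a _ b _ hab
    exact Subtype.ext (congrArg (fun z : Qb p => (z : PadicAlgCl p)) hab)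
  let ℓ : (Qb p)[X] := Lagrange.basis Finset.univ nd ⟨c, hcS⟩
  have hℓ : ∀ c' : S, (ℓ.eval (nd c') : Qb p) = if c' = ⟨c, hcS⟩ then 1 else 0 := by
    intro c'
    split_ifs with h
    · rw [h]
      exact Lagrange.eval_basis_self hnd (Finset.mem_univ _)
    · exact Lagrange.eval_basis_of_ne (Ne.symm h) (Finset.mem_univ _)
  have hℓ' : ∀ c' : S, ∑ i ∈ range (ℓ.natDegree + 1), (ℓ.coeff i : PadicAlgCl p) *
      (c' : PadicAlgCl p) ^ i = if c' = ⟨c, hcS⟩ then 1 else 0 := by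
    intro c'
    have h1 := hℓ c'
    rw [eval_eq_sum_range] at h1
    have h2 := congrArg (fun z : Qb p => (z : PadicAlgCl p)) h1
    push_cast at h2
    rw [show (∑ i ∈ range (ℓ.natDegree + 1), (ℓ.coeff i : PadicAlgCl p) *
      (c' : PadicAlgCl p) ^ i) = ∑ x ∈ range (ℓ.natDegree + 1), (ℓ.coeff x : PadicAlgCl p) *
      ((nd c' : Qb p) : PadicAlgCl p) ^ x from rfl, h2]
    split_ifs <;> simp
  have hfinal : v = ∑ i ∈ range (ℓ.natDegree + 1), (ℓ.coeff i : PadicAlgCl p) * t i := by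
    have h1 : ∑ i ∈ range (ℓ.natDegree + 1), (ℓ.coeff i : PadicAlgCl p) * t i =
        ∑ c' : S, (∑ i ∈ range (ℓ.natDegree + 1), (ℓ.coeff i : PadicAlgCl p) *
          (c' : PadicAlgCl p) ^ i) * w c' := by
      simp only [t, Finset.mul_sum, Finset.sum_mul]
      rw [Finset.sum_comm, ← Finset.sum_coe_sort S]
      refine Finset.sum_congr rfl fun c' _ => Finset.sum_congr rfl fun i _ => ?_
      ring
    rw [h1]
    rw [Finset.sum_congr rfl (fun c' _ => by rw [hℓ' c'])]
    simp only [ite_mul, one_mul, zero_mul]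
    rw [Finset.sum_ite_eq' Finset.univ (⟨c, hcS⟩ : S) (fun c' : S => w c')]
    rw [if_pos (Finset.mem_univ _)]
    have := hw AlgEquiv.refl
    exact this.symm
  rw [hfinal]
  refine Submodule.sum_mem _ fun i _ => hsmul _ (mem_algebraicClosure_iff.1 (ℓ.coeff i).2) _ _ ?_
  exact Submodule.subset_span ⟨htV i, htE i⟩

end Pool.Agent.Q244.GD
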