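import Pool.Agent.Q244.GD.Descent
import Pool.Agent.W254.PA.LogP
import Pool.Agent.W245.PB.BakerThmP

/-!
# Galois descent for singular matrices of linear forms in p-adic logarithms
-/

set_option autoImplicit false

namespace Pool.Agent.Q244.GD

open Polynomial Finset Module
open Pool.Agent.W254.PA (LtE logs hyp_padic Hyp exists_norm_pow exists_pow_near)
open Pool.Agent.W245.PB (IsIwasawaLog)

variable {p : ℕ} [hp : Fact p.Prime] {L : PadicAlgCl p → PadicAlgCl p}

/-- The logarithm commutes with the automorphisms. -/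
theorem log_aut (hL : IsIwasawaLog p L) (σ : PadicAlgCl p ≃ₐ[ℚ_[p]] PadicAlgCl p)
    {α : PadicAlgCl p} (hα : α ≠ 0) : L (σ α) = σ (L α) := by
  have hpne : (p : PadicAlgCl p) ≠ 0 := Nat.cast_ne_zero.2 hp.out.ne_zero
  obtain ⟨N, hN, a, ha⟩ := exists_norm_pow p α hα
  obtain ⟨M, hM, hM2⟩ := exists_pow_near p (α ^ N * (p : PadicAlgCl p) ^ a) ha 1 one_pos
  set v := α ^ N * (p : PadicAlgCl p) ^ a with hv
  have hv0 : v ≠ 0 := mul_ne_zero (pow_ne_zero _ hα) (zpow_ne_zero _ hpne)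
  have key : ∀ β : PadicAlgCl p, β ≠ 0 → L ((β ^ N * (p : PadicAlgCl p) ^ a) ^ M) =
      ((M * N : ℕ) : PadicAlgCl p) * L β := by
    intro β hβ
    rw [hL.pow (mul_ne_zero (pow_ne_zero _ hβ) (zpow_ne_zero _ hpne)),
      hL.mul _ _ (pow_ne_zero _ hβ) (zpow_ne_zero _ hpne), hL.pow hβ,
      hL.zpow hpne, hL.prime]
    push_cast
    ring
  have hσα : σ α ≠ 0 := (map_ne_zero_iff σ σ.injective).2 hα
  have h1 := hL.ser (v ^ M - 1) hM2
  have h2 := hL.ser (σ (v ^ M - 1)) (by rw [norm_aut]; exact hM2)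
  have h3 := h1.map (σ : PadicAlgCl p →+ PadicAlgCl p) (cont_aut σ)
  have h4 : (⇑(σ : PadicAlgCl p →+ PadicAlgCl p) ∘ fun n : ℕ =>
      (-1 : PadicAlgCl p) ^ n * (v ^ M - 1) ^ (n + 1) / ((n : PadicAlgCl p) + 1)) =
      fun n : ℕ => (-1 : PadicAlgCl p) ^ n * (σ (v ^ M - 1)) ^ (n + 1) /
        ((n : PadicAlgCl p) + 1) := by
    funext n
    simp [map_div₀]
  rw [h4] at h3
  have h5 := h2.unique h3
  have h6 : (1 : PadicAlgCl p) + σ (v ^ M - 1) = ((σ α) ^ N * (p : PadicAlgCl p) ^ a) ^ M := by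
    rw [map_sub, map_one, map_pow, hv, map_mul, map_pow, map_zpow₀, map_natCast]
    ring
  have h7 : (1 : PadicAlgCl p) + (v ^ M - 1) = v ^ M := by ring
  rw [h6, h7, key _ hσα] at h5
  have h8 : (σ : PadicAlgCl p →+ PadicAlgCl p) (L (v ^ M)) =
      ((M * N : ℕ) : PadicAlgCl p) * σ (L α) := by
    rw [hv, key _ hα]
    show σ (((M * N : ℕ) : PadicAlgCl p) * L α) = _
    rw [map_mul, map_natCast]
  rw [h8] at h5
  have h9 : ((M * N : ℕ) : PadicAlgCl p) ≠ 0 := by
    exact_mod_cast (Nat.mul_pos hM hN).ne'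
  exact mul_left_cancel₀ h9 h5

theorem smul_eq' (c : Qb p) (x : PadicAlgCl p) : c • x = (c : PadicAlgCl p) * x :=
  Algebra.smul_def c x

/-- The space of linear forms in logarithms is stable. -/
theorem stable (hL : IsIwasawaLog p L) (σ : PadicAlgCl p ≃ₐ[ℚ_[p]] PadicAlgCl p)
    {z : PadicAlgCl p} (hz : z ∈ LtE (logs L)) : σ z ∈ LtE (logs L) := by
  have halg : ∀ c : PadicAlgCl p, IsAlgebraic ℚ c → IsAlgebraic ℚ (σ c) := fun c hc =>
    hc.algHom (RingHom.toRatAlgHom (σ : PadicAlgCl p →+* PadicAlgCl p))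
  refine Submodule.span_induction (p := fun z _ => σ z ∈ LtE (logs L)) ?_ ?_ ?_ ?_ hz
  · rintro z (hz | ⟨α, hα, hα', rfl⟩)
    · rw [Set.mem_singleton_iff] at hz
      subst hz
      rw [map_one]
      exact Submodule.subset_span (Or.inl rfl)
    · rw [← log_aut hL σ hα]
      exact Submodule.subset_span (Or.inr ⟨σ α, (map_ne_zero_iff σ σ.injective).2 hα,
        halg α hα', rfl⟩)
  · rw [map_zero]
    exact Submodule.zero_mem _
  · intro x y _ _ hx hy
    rw [map_add]
    exact Submodule.add_mem _ hx hy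
  · intro c x _ hx
    rw [smul_eq', map_mul]
    have := (LtE (logs L)).smul_mem
      (⟨σ c, mem_algebraicClosure_iff.2 (halg _ (mem_algebraicClosure_iff.1 c.2))⟩ : Qb p) hx
    rwa [smul_eq'] at this

/-- The elements `x` such that `x` and `s x` are linear forms in logarithms. -/
noncomputable def VS (L : PadicAlgCl p → PadicAlgCl p) (s : PadicAlgCl p) :
    Submodule (Qb p) (PadicAlgCl p) where
  carrier := {x | x ∈ LtE (logs L) ∧ s * x ∈ LtE (logs L)}
  add_mem' := by
    rintro x y ⟨hx, hx'⟩ ⟨hy, hy'⟩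
    refine ⟨Submodule.add_mem _ hx hy, ?_⟩
    rw [mul_add]
    exact Submodule.add_mem _ hx' hy'
  zero_mem' := ⟨Submodule.zero_mem _, by rw [mul_zero]; exact Submodule.zero_mem _⟩
  smul_mem' := by
    rintro c x ⟨hx, hx'⟩
    refine ⟨Submodule.smul_mem _ c hx, ?_⟩
    rw [smul_eq', mul_left_comm, ← smul_eq']
    exact Submodule.smul_mem _ c hx'

theorem mem_VS {s x : PadicAlgCl p} :
    x ∈ VS L s ↔ x ∈ LtE (logs L) ∧ s * x ∈ LtE (logs L) := Iff.rfl

/-- Three elements of `VS L s` are dependent. -/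
theorem three (hL : IsIwasawaLog p L) {s : PadicAlgCl p} (hs : ¬ IsAlgebraic ℚ s)
    (x : Fin 3 → PadicAlgCl p) (hx : ∀ i, x i ∈ VS L s) : ¬ LinearIndependent (Qb p) x := by
  intro hli
  have key := hyp_padic hL 2 3 ![s, -1] ![fun j => x j, fun j => s * x j] ?_ ?_ ?_ ?_
  · omega
  · rw [Fintype.linearIndependent_iff]
    intro g hg
    rw [Fin.sum_univ_two] at hg
    simp only [Matrix.cons_val_zero, Matrix.cons_val_one, smul_eq'] at hg
    have h0 : (g 0 : PadicAlgCl p) = 0 := by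
      by_contra hne
      apply hs
      have : s = (g 1 : PadicAlgCl p) * (g 0 : PadicAlgCl p)⁻¹ := by
        field_simp
        linear_combination hg
      rw [this]
      exact (mem_algebraicClosure_iff.1 (g 1).2).mul (mem_algebraicClosure_iff.1 (g 0).2).inv
    rw [h0] at hg
    have h1 : (g 1 : PadicAlgCl p) = 0 := by linear_combination -hg
    intro i
    fin_cases i
    · exact_mod_cast h0
    · exact_mod_cast h1
  · intro i j
    fin_cases i
    · exact (mem_VS.1 (hx j)).1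
    · exact (mem_VS.1 (hx j)).2
  · intro j
    rw [Fin.sum_univ_two]
    simp only [Matrix.cons_val_zero, Matrix.cons_val_one]
    ring
  · refine LinearIndependent.of_comp (LinearMap.proj 0 : (Fin 2 → PadicAlgCl p) →ₗ[Qb p] _) ?_
    exact hli

/-- Two independent elements of `VS L s` span it. -/
theorem span_two (hL : IsIwasawaLog p L) {s : PadicAlgCl p} (hs : ¬ IsAlgebraic ℚ s)
    {x y z : PadicAlgCl p} (hx : x ∈ VS L s) (hy : y ∈ VS L s) (hz : z ∈ VS L s)
    (hli : ∀ a b : Qb p, (a : PadicAlgCl p) * x + b * y = 0 → a = 0 ∧ b = 0) :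
    ∃ a b : Qb p, z = (a : PadicAlgCl p) * x + b * y := by
  have h := three hL hs ![x, y, z] (by
    intro i
    fin_cases i
    · exact hx
    · exact hy
    · exact hz)
  rw [Fintype.linearIndependent_iff] at h
  push Not at h
  obtain ⟨g, hg, i, hi⟩ := h
  rw [Fin.sum_univ_three] at hg
  simp only [Matrix.cons_val_zero, Matrix.cons_val_one, Matrix.cons_val, smul_eq'] at hg
  have h2 : g 2 ≠ 0 := by
    intro h2
    rw [h2] at hg
    obtain ⟨h0, h1⟩ := hli (g 0) (g 1) (by push_cast at hg; linear_combination hg)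
    fin_cases i
    · exact hi h0
    · exact hi h1
    · exact hi h2
  have h2' : (g 2 : PadicAlgCl p) ≠ 0 := by exact_mod_cast h2
  refine ⟨-(g 0) / g 2, -(g 1) / g 2, ?_⟩
  push_cast
  field_simp
  linear_combination hg

end Pool.Agent.Q244.GD
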