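import Pool.Agent.Q244.GD.Main

/-!
# Galois descent for singular matrices of linear forms in p-adic logarithms: matrices
-/

set_option autoImplicit false

namespace Pool.Agent.Q244.GD

open Polynomial Finset Module
open Pool.Agent.W254.PA (LtE logs hyp_padic Hyp)
open Pool.Agent.W245.PB (IsIwasawaLog)

variable {p : ℕ} [hp : Fact p.Prime] {L : PadicAlgCl p → PadicAlgCl p}

/-- A counterexample. -/
structure CE (L : PadicAlgCl p → PadicAlgCl p) (M : Matrix (Fin 2) (Fin 2) (PadicAlgCl p)) :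
    Prop where
  mem : ∀ i j, M i j ∈ LtE (logs L)
  rows : ∀ a b : Qb p, (∀ j, (a : PadicAlgCl p) * M 0 j + b * M 1 j = 0) → a = 0 ∧ b = 0
  cols : ∀ a b : Qb p, (∀ i, (a : PadicAlgCl p) * M i 0 + b * M i 1 = 0) → a = 0 ∧ b = 0
  det : M 0 0 * M 1 1 = M 0 1 * M 1 0

theorem CE.tr {M : Matrix (Fin 2) (Fin 2) (PadicAlgCl p)} (h : CE L M) : CE L M.transpose where
  mem i j := h.mem j i
  rows a b hab := h.cols a b hab
  cols a b hab := h.rows a b hab
  det := by
    simp only [Matrix.transpose_apply]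
    rw [h.det]
    ring

/-- The matrix with algebraic entries. -/
noncomputable def cm (P : Matrix (Fin 2) (Fin 2) (Qb p)) : Matrix (Fin 2) (Fin 2) (PadicAlgCl p) :=
  P.map fun c => (c : PadicAlgCl p)

theorem cm_mul (P : Matrix (Fin 2) (Fin 2) (Qb p)) (M : Matrix (Fin 2) (Fin 2) (PadicAlgCl p))
    (i j : Fin 2) : (cm P * M) i j = (P i 0 : PadicAlgCl p) * M 0 j + P i 1 * M 1 j := by
  rw [Matrix.mul_apply, Fin.sum_univ_two]
  rfl

theorem mul_cm (M : Matrix (Fin 2) (Fin 2) (PadicAlgCl p)) (P : Matrix (Fin 2) (Fin 2) (Qb p))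
    (i j : Fin 2) : (M * cm P) i j = M i 0 * (P 0 j : PadicAlgCl p) + M i 1 * P 1 j := by
  rw [Matrix.mul_apply, Fin.sum_univ_two]
  rfl

theorem cm_tr (P : Matrix (Fin 2) (Fin 2) (Qb p)) : cm P.transpose = (cm P).transpose := rfl

theorem cm_cm (P Q : Matrix (Fin 2) (Fin 2) (Qb p)) : cm (P * Q) = cm P * cm Q := by
  unfold cm
  exact Matrix.map_mul (f := algebraMap (Qb p) (PadicAlgCl p))

theorem CE.lmul {M : Matrix (Fin 2) (Fin 2) (PadicAlgCl p)} (h : CE L M)
    (P : Matrix (Fin 2) (Fin 2) (Qb p)) (hP : P.det ≠ 0) : CE L (cm P * M) where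
  mem i j := by
    rw [cm_mul, ← smul_eq', ← smul_eq']
    exact Submodule.add_mem _ (Submodule.smul_mem _ _ (h.mem _ _))
      (Submodule.smul_mem _ _ (h.mem _ _))
  rows a b hab := by
    have h1 := h.rows (a * P 0 0 + b * P 1 0) (a * P 0 1 + b * P 1 1) (by
      intro j
      have := hab j
      rw [cm_mul, cm_mul] at this
      push_cast
      linear_combination this)
    rw [Matrix.det_fin_two] at hP
    constructor
    · apply (mul_eq_zero.1 _).resolve_right hP
      linear_combination P 1 1 * h1.1 - P 1 0 * h1.2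
    · apply (mul_eq_zero.1 _).resolve_right hP
      linear_combination P 0 0 * h1.2 - P 0 1 * h1.1
  cols a b hab := by
    apply h.cols a b
    have h0 := hab 0
    have h1 := hab 1
    rw [cm_mul, cm_mul] at h0 h1
    have hP' : (P 0 0 : PadicAlgCl p) * P 1 1 - P 0 1 * P 1 0 ≠ 0 := by
      rw [Matrix.det_fin_two] at hP
      exact_mod_cast hP
    refine Fin.forall_fin_two.2 ⟨?_, ?_⟩
    · apply (mul_eq_zero.1 _).resolve_right hP'
      linear_combination (P 1 1 : PadicAlgCl p) * h0 - (P 0 1 : PadicAlgCl p) * h1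
    · apply (mul_eq_zero.1 _).resolve_right hP'
      linear_combination (P 0 0 : PadicAlgCl p) * h1 - (P 1 0 : PadicAlgCl p) * h0
  det := by
    rw [cm_mul, cm_mul, cm_mul, cm_mul]
    linear_combination ((P 0 0 : PadicAlgCl p) * P 1 1 - P 0 1 * P 1 0) * h.det

theorem CE.rmul {M : Matrix (Fin 2) (Fin 2) (PadicAlgCl p)} (h : CE L M)
    (P : Matrix (Fin 2) (Fin 2) (Qb p)) (hP : P.det ≠ 0) : CE L (M * cm P) := by
  have h1 := (h.tr.lmul P.transpose (by rwa [Matrix.det_transpose])).tr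
  rwa [cm_tr, ← Matrix.transpose_mul, Matrix.transpose_transpose] at h1

theorem CE.ne {M : Matrix (Fin 2) (Fin 2) (PadicAlgCl p)} (h : CE L M) : M 0 0 ≠ 0 := by
  intro h0
  have h1 : M 1 0 ≠ 0 := by
    intro h1
    have := (h.cols 1 0 (by
      intro i
      fin_cases i
      · simp [h0]
      · simp [h1])).1
    exact one_ne_zero this
  have h2 : M 0 1 = 0 := by
    have := h.det
    rw [h0, zero_mul] at this
    exact (mul_eq_zero.1 this.symm).resolve_right h1
  have := (h.rows 1 0 (by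
    intro i
    fin_cases i
    · simp [h0]
    · simp [h2])).1
  exact one_ne_zero this

/-- The quotient of the columns. -/
def CQ (s : PadicAlgCl p) (M : Matrix (Fin 2) (Fin 2) (PadicAlgCl p)) : Prop :=
  ∀ i, M i 1 = s * M i 0

/-- The quotient of the rows. -/
def RQ (t : PadicAlgCl p) (M : Matrix (Fin 2) (Fin 2) (PadicAlgCl p)) : Prop :=
  ∀ j, M 1 j = t * M 0 j

theorem CE.exists_CQ {M : Matrix (Fin 2) (Fin 2) (PadicAlgCl p)} (h : CE L M) :
    ∃ s, CQ s M := by
  have h0 := h.ne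
  refine ⟨M 0 1 / M 0 0, fun i => ?_⟩
  fin_cases i
  · show M 0 1 = M 0 1 / M 0 0 * M 0 0
    field_simp
  · show M 1 1 = M 0 1 / M 0 0 * M 1 0
    rw [div_mul_eq_mul_div, eq_div_iff h0]
    linear_combination h.det

theorem CE.exists_RQ {M : Matrix (Fin 2) (Fin 2) (PadicAlgCl p)} (h : CE L M) :
    ∃ t, RQ t M := h.tr.exists_CQ

theorem CE.notAlg {M : Matrix (Fin 2) (Fin 2) (PadicAlgCl p)} (h : CE L M) {s : PadicAlgCl p}
    (hs : CQ s M) : ¬ IsAlgebraic ℚ s := by
  intro halg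
  have := (h.cols (⟨s, mem_algebraicClosure_iff.2 halg⟩ : Qb p) (-1) (by
    intro i
    rw [hs i]
    push_cast
    ring)).2
  exact one_ne_zero (neg_eq_zero.1 this)

theorem CE.col_mem {M : Matrix (Fin 2) (Fin 2) (PadicAlgCl p)} (h : CE L M) {s : PadicAlgCl p}
    (hs : CQ s M) (i : Fin 2) : M i 0 ∈ VS L s :=
  ⟨h.mem i 0, by rw [← hs i]; exact h.mem i 1⟩

theorem CE.col_indep {M : Matrix (Fin 2) (Fin 2) (PadicAlgCl p)} (h : CE L M) {s : PadicAlgCl p}
    (hs : CQ s M) (a b : Qb p) (hab : (a : PadicAlgCl p) * M 0 0 + b * M 1 0 = 0) :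
    a = 0 ∧ b = 0 := by
  apply h.rows a b
  intro j
  fin_cases j
  · exact hab
  · show (a : PadicAlgCl p) * M 0 1 + b * M 1 1 = 0
    rw [hs 0, hs 1]
    linear_combination s * hab

/-- **Descent for matrices.** -/
theorem CE.descent (hL : IsIwasawaLog p L) {M : Matrix (Fin 2) (Fin 2) (PadicAlgCl p)}
    (h : CE L M) (E : IntermediateField ℚ_[p] (PadicAlgCl p)) {s : PadicAlgCl p} (hsE : s ∈ E)
    (hs : CQ s M) : ∃ P : Matrix (Fin 2) (Fin 2) (Qb p), P.det ≠ 0 ∧
      (∀ i j, (cm P * M) i j ∈ E) ∧ CQ s (cm P * M) := by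
  classical
  have hna := h.notAlg hs
  have hstab : ∀ σ : PadicAlgCl p ≃ₐ[E] PadicAlgCl p, ∀ v ∈ VS L s, σ v ∈ VS L s := by
    rintro σ v ⟨h1, h2⟩
    have h3 := stable hL (σ.restrictScalars ℚ_[p]) h1
    have h4 := stable hL (σ.restrictScalars ℚ_[p]) h2
    refine ⟨h3, ?_⟩
    have h5 : σ s = s := σ.commutes ⟨s, hsE⟩
    have h6 : (σ.restrictScalars ℚ_[p]) (s * v) = s * σ v := by
      show σ (s * v) = s * σ v
      rw [map_mul, h5]
    rwa [h6] at h4
  have hspan := fun v hv => Pool.Agent.Q244.GD.descent E (VS L s) hstab v hv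
  -- coordinates
  have hco : ∀ z ∈ VS L s, ∃ a b : Qb p, z = (a : PadicAlgCl p) * M 0 0 + b * M 1 0 := fun z hz =>
    span_two hL hna (h.col_mem hs 0) (h.col_mem hs 1) hz (h.col_indep hs)
  by_contra hcon
  push Not at hcon
  -- all elements of `VS ∩ E` are proportional
  have hdet : ∀ a b c d : Qb p, ((a : PadicAlgCl p) * M 0 0 + b * M 1 0) ∈ E →
      ((c : PadicAlgCl p) * M 0 0 + d * M 1 0) ∈ E → a * d - b * c = 0 := by
    intro a b c d h1 h2
    by_contra hne
    refine hcon !![a, b; c, d] (by rw [Matrix.det_fin_two]; exact hne) ?_ ?_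
    · intro i j
      rw [cm_mul]
      have e1 : ∀ i : Fin 2, ((!![a, b; c, d] : Matrix (Fin 2) (Fin 2) (Qb p)) i 0 : PadicAlgCl p) *
          M 0 0 + (!![a, b; c, d] : Matrix (Fin 2) (Fin 2) (Qb p)) i 1 * M 1 0 ∈ E := by
        intro i
        fin_cases i
        · exact h1
        · exact h2
      fin_cases j
      · exact e1 i
      · show ((!![a, b; c, d] : Matrix (Fin 2) (Fin 2) (Qb p)) i 0 : PadicAlgCl p) *
          M 0 1 + (!![a, b; c, d] : Matrix (Fin 2) (Fin 2) (Qb p)) i 1 * M 1 1 ∈ E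
        rw [hs 0, hs 1]
        have := E.mul_mem hsE (e1 i)
        convert this using 1
        ring
    · intro i
      rw [cm_mul, cm_mul, hs 0, hs 1]
      ring
  -- a nonzero element of `VS ∩ E`
  have hx := hspan _ (h.col_mem hs 0)
  have hy := hspan _ (h.col_mem hs 1)
  have hex : ∃ w, w ∈ VS L s ∧ w ∈ E ∧ w ≠ 0 := by
    by_contra hno
    push Not at hno
    have : Submodule.span (Qb p) {w | w ∈ VS L s ∧ w ∈ E} = ⊥ := by
      rw [Submodule.span_eq_bot]
      rintro w ⟨h1, h2⟩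
      exact hno w h1 h2
    rw [this, Submodule.mem_bot] at hx
    exact h.ne hx
  obtain ⟨w, hw1, hw2, hw3⟩ := hex
  obtain ⟨a, b, hab⟩ := hco w hw1
  have hle : Submodule.span (Qb p) {w | w ∈ VS L s ∧ w ∈ E} ≤ Submodule.span (Qb p) {w} := by
    rw [Submodule.span_le]
    rintro z ⟨h1, h2⟩
    obtain ⟨c, d, hcd⟩ := hco z h1
    have h3 := hdet a b c d (by rw [← hab]; exact hw2) (by rw [← hcd]; exact h2)
    rw [SetLike.mem_coe, Submodule.mem_span_singleton]
    by_cases ha : a = 0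
    · have hb : b ≠ 0 := by
        rintro rfl
        apply hw3
        rw [hab, ha]
        simp
      refine ⟨d / b, ?_⟩
      have hc : c = 0 := by
        rw [ha, zero_mul, zero_sub, neg_eq_zero] at h3
        exact (mul_eq_zero.1 h3).resolve_left hb
      have hb' : (b : PadicAlgCl p) ≠ 0 := by exact_mod_cast hb
      rw [smul_eq', hab, hcd, ha, hc]
      push_cast
      field_simp
      ring
    · refine ⟨c / a, ?_⟩
      have ha' : (a : PadicAlgCl p) ≠ 0 := by exact_mod_cast ha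
      have h4 : (a : PadicAlgCl p) * d - b * c = 0 := by exact_mod_cast h3
      rw [smul_eq', hab, hcd]
      push_cast
      field_simp
      linear_combination -M 1 0 * h4
  obtain ⟨c1, hc1⟩ := Submodule.mem_span_singleton.1 (hle hx)
  obtain ⟨c2, hc2⟩ := Submodule.mem_span_singleton.1 (hle hy)
  rw [smul_eq'] at hc1 hc2
  have h5 := h.col_indep hs c2 (-c1) (by
    push_cast
    rw [← hc1, ← hc2]
    ring)
  apply h.ne
  rw [← hc1, neg_eq_zero.1 h5.2]
  simp

/-- The conjugates of the quotient of the rows. -/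
theorem CE.conj (hL : IsIwasawaLog p L) {M : Matrix (Fin 2) (Fin 2) (PadicAlgCl p)}
    (h : CE L M) {s t : PadicAlgCl p} (hs : CQ s M) (ht : RQ t M)
    (σ : PadicAlgCl p ≃ₐ[ℚ_[p]] PadicAlgCl p) (hσ : σ s = s) :
    ∃ a b c d : Qb p, a * d - b * c ≠ 0 ∧ σ t * (c * t + d) = a * t + b := by
  have hna := h.notAlg hs
  have hstab : ∀ v ∈ VS L s, σ v ∈ VS L s := by
    rintro v ⟨h1, h2⟩
    have h3 := stable hL σ h1
    have h4 := stable hL σ h2
    rw [map_mul, hσ] at h4
    exact ⟨h3, h4⟩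
  obtain ⟨d, c, hdc⟩ := span_two hL hna (h.col_mem hs 0) (h.col_mem hs 1)
    (hstab _ (h.col_mem hs 0)) (h.col_indep hs)
  obtain ⟨b, a, hba⟩ := span_two hL hna (h.col_mem hs 0) (h.col_mem hs 1)
    (hstab _ (h.col_mem hs 1)) (h.col_indep hs)
  have h0 := h.ne
  have ht0 : M 1 0 = t * M 0 0 := ht 0
  refine ⟨a, b, c, d, ?_, ?_⟩
  · -- independence of the images
    intro hdet
    -- choose a nontrivial relation between `σ M00` and `σ M10` with algebraic coefficients
    have halg : ∀ e : Qb p, IsAlgebraic ℚ (σ.symm (e : PadicAlgCl p)) := fun e =>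
      (mem_algebraicClosure_iff.1 e.2).algHom
        (RingHom.toRatAlgHom (σ.symm : PadicAlgCl p →+* PadicAlgCl p))
    have hrel : ∀ e f : Qb p, (e : PadicAlgCl p) * σ (M 0 0) + f * σ (M 1 0) = 0 →
        e = 0 ∧ f = 0 := by
      intro e f hef
      have h1 := congrArg σ.symm hef
      rw [map_add, map_mul, map_mul, AlgEquiv.symm_apply_apply, AlgEquiv.symm_apply_apply,
        map_zero] at h1
      have h2 := h.col_indep hs ⟨_, mem_algebraicClosure_iff.2 (halg e)⟩
        ⟨_, mem_algebraicClosure_iff.2 (halg f)⟩ h1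
      have h3 : σ.symm (e : PadicAlgCl p) = 0 := congrArg (fun z : Qb p => (z : PadicAlgCl p)) h2.1
      have h4 : σ.symm (f : PadicAlgCl p) = 0 := congrArg (fun z : Qb p => (z : PadicAlgCl p)) h2.2
      rw [EmbeddingLike.map_eq_zero_iff] at h3 h4
      exact ⟨by exact_mod_cast h3, by exact_mod_cast h4⟩
    have hdet' : (a : PadicAlgCl p) * d - b * c = 0 := by exact_mod_cast hdet
    have h5 := hrel a (-c) (by
      rw [hdc, hba]
      push_cast
      linear_combination M 0 0 * hdet')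
    have h6 := hrel b (-d) (by
      rw [hdc, hba]
      push_cast
      linear_combination -M 1 0 * hdet')
    have hc0 : c = 0 := neg_eq_zero.1 h5.2
    have hd0 : d = 0 := neg_eq_zero.1 h6.2
    have h7 : σ (M 0 0) = 0 := by
      rw [hdc, hc0, hd0]
      simp
    rw [EmbeddingLike.map_eq_zero_iff] at h7
    exact h0 h7
  · have h8 : σ (M 1 0) = σ t * σ (M 0 0) := by rw [ht0, map_mul]
    rw [hdc, hba, ht0] at h8
    apply mul_left_cancel₀ h0
    linear_combination -h8

end Pool.Agent.Q244.GD
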